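import Pool.Agent.H66.SG.T7

/-!
# The bound of the switching lemma is additive and the steps are small
-/

set_option autoImplicit false

open MeasureTheory ProbabilityTheory Filter Topology Finset
open scoped Nat ENNReal

namespace Pool.Agent.H66.SG.S4b

open Pool.Agent.H67.AG
open Pool.Agent.H24.T2 (Pset)

section AB

variable {Ω : Type} [MeasurableSpace Ω]

/-- nonnegative, bounded and additive on the measurable sets -/
structure AB (C : ℝ) (f : Set Ω → ℝ) : Prop where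
  nn : ∀ B, MeasurableSet B → 0 ≤ f B
  le : ∀ B, MeasurableSet B → f B ≤ C
  ad : ∀ B B', MeasurableSet B → MeasurableSet B' → Disjoint B B' → f (B ∪ B') = f B + f B'

theorem AB.bd {C : ℝ} {f : Set Ω → ℝ} (h : AB C f) {B : Set Ω} (hB : MeasurableSet B) :
    |f B| ≤ C := by
  rw [abs_of_nonneg (h.nn B hB)]
  exact h.le B hB

theorem AB.inter (P : Measure Ω) [IsProbabilityMeasure P] (S : Set Ω) :
    AB 1 (fun B => P.real (B ∩ S)) := by
  refine ⟨fun B _ => measureReal_nonneg, fun B _ => measureReal_le_one, ?_⟩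
  intro B B' hB _ hd
  have h := measureReal_inter_add_sdiff (μ := P) (s := (B ∪ B') ∩ S) hB
  rw [← h]
  congr 2
  · ext ω
    simp only [Set.mem_inter_iff, Set.mem_union]
    tauto
  · ext ω
    simp only [Set.mem_inter_iff, Set.mem_union, Set.mem_sdiff]
    constructor
    · rintro ⟨⟨h1 | h1, h2⟩, h3⟩
      · exact absurd h1 h3
      · exact ⟨h1, h2⟩
    · rintro ⟨h1, h2⟩
      exact ⟨⟨Or.inr h1, h2⟩, fun h3 => Set.disjoint_left.mp hd h3 h1⟩

theorem AB.real (P : Measure Ω) [IsProbabilityMeasure P] : AB 1 (fun B : Set Ω => P.real B) := by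
  have h := AB.inter P Set.univ
  simpa only [Set.inter_univ] using h

theorem AB.int (P : Measure Ω) [IsProbabilityMeasure P] {C : ℝ} {f : Ω → ℝ} (hf : Measurable f)
    (h0 : ∀ ω, 0 ≤ f ω) (hC : ∀ᵐ ω ∂P, f ω ≤ C) : AB C (fun B => ∫ ω in B, f ω ∂P) := by
  have hi : Integrable f P := by
    apply Integrable.of_bound hf.aestronglyMeasurable C
    filter_upwards [hC] with ω hω
    rw [Real.norm_eq_abs, abs_of_nonneg (h0 ω)]
    exact hω
  refine ⟨fun B _ => setIntegral_nonneg_of_ae (Filter.Eventually.of_forall h0), ?_, ?_⟩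
  · intro B _
    have h1 : ∫ ω in B, f ω ∂P ≤ ∫ ω, f ω ∂P :=
      setIntegral_le_integral hi (Filter.Eventually.of_forall h0)
    have h2 : ∫ ω, f ω ∂P ≤ ∫ _ : Ω, C ∂P := integral_mono_ae hi (integrable_const C) hC
    rw [integral_const, probReal_univ, one_smul] at h2
    linarith
  · intro B B' hB hB' hd
    exact setIntegral_union hd hB' hi.integrableOn hi.integrableOn

theorem AB.add {C C' : ℝ} {f g : Set Ω → ℝ} (hf : AB C f) (hg : AB C' g) :
    AB (C + C') (fun B => f B + g B) := by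
  refine ⟨fun B hB => add_nonneg (hf.nn B hB) (hg.nn B hB),
    fun B hB => add_le_add (hf.le B hB) (hg.le B hB), ?_⟩
  intro B B' hB hB' hd
  rw [hf.ad B B' hB hB' hd, hg.ad B B' hB hB' hd]
  ring

theorem AB.mul {C : ℝ} {f : Set Ω → ℝ} (a : ℝ) (ha : 0 ≤ a) (hf : AB C f) :
    AB (a * C) (fun B => a * f B) := by
  refine ⟨fun B hB => mul_nonneg ha (hf.nn B hB),
    fun B hB => mul_le_mul_of_nonneg_left (hf.le B hB) ha, ?_⟩
  intro B B' hB hB' hd
  rw [hf.ad B B' hB hB' hd]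
  ring

theorem AB.sum {ι : Type} (s : Finset ι) {C : ι → ℝ} {f : ι → Set Ω → ℝ}
    (hf : ∀ i, AB (C i) (f i)) : AB (∑ i ∈ s, C i) (fun B => ∑ i ∈ s, f i B) := by
  refine ⟨fun B hB => Finset.sum_nonneg fun i _ => (hf i).nn B hB,
    fun B hB => Finset.sum_le_sum fun i _ => (hf i).le B hB, ?_⟩
  intro B B' hB hB' hd
  rw [← Finset.sum_add_distrib]
  exact Finset.sum_congr rfl fun i _ => (hf i).ad B B' hB hB' hd

theorem AB.avg {C : ℝ} (hC : 0 ≤ C) (W m : ℕ) {f : ℕ → Set Ω → ℝ} (hf : ∀ p, AB C (f p)) :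
    AB C (fun B => avgP W m fun p => f p B) := by
  refine ⟨fun B hB => ?_, fun B hB => ?_, ?_⟩
  · unfold avgP
    exact div_nonneg (Finset.sum_nonneg fun p _ => (hf p).nn B hB) (Nat.cast_nonneg _)
  · unfold avgP
    apply div_le_of_le_mul₀ (Nat.cast_nonneg _) hC
    calc ∑ p ∈ Ps W m, f p B ≤ ∑ _p ∈ Ps W m, C :=
          Finset.sum_le_sum fun p _ => (hf p).le B hB
      _ = C * ((Ps W m).card : ℝ) := by rw [Finset.sum_const, nsmul_eq_mul, mul_comm]
  · intro B B' hB hB' hd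
    unfold avgP
    rw [← add_div, ← Finset.sum_add_distrib]
    congr 1
    exact Finset.sum_congr rfl fun p _ => (hf p).ad B B' hB hB' hd

theorem AB.ul (hul : T_UL) (U : Ultrafilter ℕ) {C : ℝ} {f : ℕ → Set Ω → ℝ}
    (hf : ∀ n, AB C (f n)) : AB C (fun B => ul U fun n => f n B) := by
  obtain ⟨_, h2, h3, _, h5⟩ := hul U
  refine ⟨fun B hB => ?_, fun B hB => ?_, ?_⟩
  · have := h2 (fun _ => 0) (fun n => f n B) ⟨0, fun n => by simp⟩ ⟨C, fun n => (hf n).bd hB⟩
      (Filter.Eventually.of_forall fun n => (hf n).nn B hB)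
    rwa [h5] at this
  · have := h2 (fun n => f n B) (fun _ => C) ⟨C, fun n => (hf n).bd hB⟩ ⟨|C|, fun n => le_rfl⟩
      (Filter.Eventually.of_forall fun n => (hf n).le B hB)
    rwa [h5] at this
  · intro B B' hB hB' hd
    rw [← h3 (fun n => f n B) (fun n => f n B') ⟨C, fun n => (hf n).bd hB⟩
      ⟨C, fun n => (hf n).bd hB'⟩]
    congr 1
    funext n
    exact (hf n).ad B B' hB hB' hd

end AB

section meas

variable {d : Sw} (e : SwE d)

theorem meas_it {Ω : Type} [MeasurableSpace Ω] (T : Ω ≃ᵐ Ω) (n : ℕ) : Measurable (T^[n]) :=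
  T.measurable.iterate n

theorem meas_y (i : Fin d.k) {s : e.Ω → Fin d.n} (hs : Measurable s) :
    Measurable fun ω => d.y (s ω) i (e.g ω) := by
  have h : Measurable fun q : Fin d.n × d.Ω' => d.y q.1 i q.2 :=
    measurable_from_prod_countable_right fun b => (d.hy b).1 i
  exact h.comp (hs.prodMk e.fac.1.measurable)

theorem meas_ys (i : Fin d.k) : Measurable (e.ys i) := meas_y e i e.sm

theorem meas_yt (t : ℕ) (i : Fin d.k) : Measurable (e.yt t i) :=
  meas_y e i (e.sm.comp (meas_it e.T _))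

theorem meas_mv (l : ℕ) : Measurable (e.mv l) := by
  classical
  have h : MeasurableSet {ω : e.Ω | e.s (e.T^[d.W * l] ω) = e.s ω} := by
    have : {ω : e.Ω | e.s (e.T^[d.W * l] ω) = e.s ω} =
        ⋃ b : Fin d.n, ((fun ω => e.s (e.T^[d.W * l] ω)) ⁻¹' {b}) ∩ (e.s ⁻¹' {b}) := by
      ext ω
      simp only [Set.mem_ofPred_eq, Set.mem_iUnion, Set.mem_inter_iff, Set.mem_preimage,
        Set.mem_singleton_iff]
      constructor
      · intro h
        exact ⟨_, h, rfl⟩
      · rintro ⟨b, h1, h2⟩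
        rw [h1, h2]
    rw [this]
    exact MeasurableSet.iUnion fun b =>
      ((e.sm.comp (meas_it e.T _)) (measurableSet_singleton b)).inter
        (e.sm (measurableSet_singleton b))
  unfold SwE.mv
  exact Measurable.ite h measurable_const measurable_const

theorem mv_bd (l : ℕ) (ω : e.Ω) : 0 ≤ e.mv l ω ∧ e.mv l ω ≤ 1 := by
  unfold SwE.mv
  split_ifs <;> norm_num

theorem meas_dl {Ω : Type} [MeasurableSpace Ω] {k : ℕ} {y y' : Fin k → Ω → ℝ} (i : Fin k)
    (h : Measurable (y i)) (h' : Measurable (y' i)) : Measurable (dl y y' i) := by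
  classical
  unfold dl
  exact Measurable.ite (measurableSet_eq_fun h h') measurable_const measurable_const

theorem dl_bd {Ω : Type} {k : ℕ} (y y' : Fin k → Ω → ℝ) (i : Fin k) (ω : Ω) :
    0 ≤ dl y y' i ω ∧ dl y y' i ω ≤ 1 := by
  unfold dl
  split_ifs <;> norm_num

theorem y_bd (b : Fin d.n) (i : Fin d.k) (ω : d.Ω') : |d.y b i ω| ≤ 1 := by
  rcases (d.hy b).2 i ω with h | h <;> rw [h] <;> norm_num

theorem meas_FF (p : ℕ) (j : Fin d.k → Fin d.n) : Measurable (d.FF p j) := by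
  unfold Sw.FF
  exact Finset.measurable_prod _ fun i _ => ((d.hy (j i)).1 i).comp (meas_it d.T' _)

theorem FF_bd (p : ℕ) (j : Fin d.k → Fin d.n) (ω : d.Ω') : |d.FF p j ω| ≤ 1 := by
  unfold Sw.FF
  rw [Finset.abs_prod]
  exact Finset.prod_le_one (fun i _ => abs_nonneg _) fun i _ => y_bd _ _ _

theorem meas_gg (a b : Fin d.n) (i : Fin d.k) : Measurable (d.gg a b i) := by
  unfold Sw.gg
  exact ((d.hy a).1 i).mul ((d.hy b).1 i)

theorem gg_bd (a b : Fin d.n) (i : Fin d.k) (ω : d.Ω') : |d.gg a b i ω| ≤ 1 := by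
  unfold Sw.gg
  rw [abs_mul]
  exact mul_le_one₀ (y_bd _ _ _) (abs_nonneg _) (y_bd _ _ _)

theorem meas_Av {Ω : Type} [MeasurableSpace Ω] (T : Ω ≃ᵐ Ω) (W n : ℕ) {f : Ω → ℝ}
    (hf : Measurable f) : Measurable (Av T W n f) := by
  unfold Av
  exact (Finset.measurable_sum _ fun l _ => hf.comp (meas_it T _)).div_const _

theorem Av_bd {Ω : Type} [MeasurableSpace Ω] (T : Ω ≃ᵐ Ω) (W n : ℕ) {f : Ω → ℝ}
    (hf : ∀ ω, |f ω| ≤ 1) (ω : Ω) : |Av T W n f ω| ≤ 1 := by
  unfold Av
  rw [abs_div, Nat.abs_cast]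
  apply div_le_of_le_mul₀ (Nat.cast_nonneg _) zero_le_one
  calc |∑ l ∈ range n, f (T^[W * l] ω)| ≤ ∑ l ∈ range n, |f (T^[W * l] ω)| :=
        Finset.abs_sum_le_sum_abs _ _
    _ ≤ ∑ _l ∈ range n, (1 : ℝ) := Finset.sum_le_sum fun l _ => hf _
    _ = 1 * (n : ℝ) := by simp

theorem meas_yb (b : Fin d.n) (i : Fin d.k) : Measurable (e.yb b i) :=
  ((d.hy b).1 i).comp e.fac.1.measurable

theorem meas_gl {yl : Fin d.k → e.Ω → ℝ} (hyl : Tup yl) (b : Fin d.n) (i : Fin d.k) :
    Measurable (gl e yl b i) := by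
  unfold gl
  exact (hyl.1 i).mul (meas_yb e b i)

theorem gl_bd {yl : Fin d.k → e.Ω → ℝ} (hyl : Tup yl) (b : Fin d.n) (i : Fin d.k) (ω : e.Ω) :
    |gl e yl b i ω| ≤ 1 := by
  unfold gl
  rw [abs_mul]
  refine mul_le_one₀ ?_ (abs_nonneg _) (y_bd b i (e.g ω))
  rcases hyl.2 i ω with h | h <;> rw [h] <;> norm_num

end meas

/-- conditional expectations of bounded functions, up to a null set bounded -/
theorem ce_bd {Ω : Type} [mΩ : MeasurableSpace Ω] (P : Measure Ω) [IsProbabilityMeasure P]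
    (m : MeasurableSpace Ω) {f : Ω → ℝ} (hf : ∀ ω, |f ω| ≤ 1) : ∀ᵐ ω ∂P, |(P[f | m]) ω| ≤ 1 := by
  exact ae_bdd_abs_condExp_of_ae_bdd_abs (Filter.Eventually.of_forall hf)

/-- the bound of the dichotomy is additive -/
theorem EL_AB (hul : T_UL) (d : Sw) (e : SwE d) (yl : Fin d.k → e.Ω → ℝ) (hyl : Tup yl)
    (L L₂ : ℕ) : ∃ C, AB C (EL e yl L L₂) := by
  have hk : (0 : ℝ) ≤ d.k := Nat.cast_nonneg _
  have hmv : ∀ l, AB 1 (fun B => ∫ ω in B, e.mv l ω ∂e.P) := fun l =>
    AB.int e.P (meas_mv e l) (fun ω => (mv_bd e l ω).1)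
      (Filter.Eventually.of_forall fun ω => (mv_bd e l ω).2)
  have hLam : ∀ y : Fin d.k → e.Ω → ℝ, AB 1 (fun B => Lam d.U d.W e.P e.T d.β d.σ y B) := by
    intro y
    unfold Lam
    exact AB.ul hul _ fun m => AB.avg zero_le_one _ _ fun p => AB.inter e.P _
  have hE2 : AB _ (fun B => E2 e L B) :=
    AB.sum (Finset.univ : Finset (Fin d.k → Fin d.n)) (C := fun _ => 2)
    (f := fun j B => ul (hyperfilter ℕ) fun L'' => ul d.U fun m => avgP d.W m fun p =>
      ∫ ω in B, |Av d.T' d.W L (d.FF p j) (e.g ω) - Av d.T' d.W L'' (d.FF p j) (e.g ω)| ∂e.P)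
    (fun j => AB.ul hul _ fun L'' => AB.ul hul _ fun m => AB.avg (by norm_num) _ _ fun p =>
      AB.int e.P
        (((meas_Av d.T' d.W L (meas_FF p j)).comp e.fac.1.measurable).sub
          ((meas_Av d.T' d.W L'' (meas_FF p j)).comp e.fac.1.measurable)).abs
        (fun ω => abs_nonneg _)
        (Filter.Eventually.of_forall fun ω => by
          have h1 := Av_bd d.T' d.W L (FF_bd p j) (e.g ω)
          have h2 := Av_bd d.T' d.W L'' (FF_bd p j) (e.g ω)
          rw [abs_le] at h1 h2 ⊢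
          constructor <;> linarith))
  have hE4 : ∀ i : Fin d.k, AB _ (fun B => E4 e yl L₂ i B) := fun i =>
    ((((((AB.sum (range L₂) fun l => hmv (Dlt d.β * l)).mul (1 / (L₂ : ℝ)) (by positivity)).add
      ((AB.sum (range L₂) fun l => hmv l).mul (1 / (L₂ : ℝ)) (by positivity))).add
      ((AB.sum (range (Dlt d.β)) fun r => hmv r).mul (1 / (Dlt d.β : ℝ)) (by positivity))).add
      ((AB.real e.P).mul ((Dlt d.β : ℝ) / (L₂ : ℝ)) (by positivity)))).add
      (AB.sum (Finset.univ : Finset (Fin d.n)) fun b =>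
          AB.int (C := 2) e.P
            ((meas_Av e.T (d.W * Dlt d.β) L₂ (meas_gl e hyl b i)).sub
              (meas_Av e.T d.W L₂ (meas_gl e hyl b i))).abs
            (fun ω => abs_nonneg _)
            (Filter.Eventually.of_forall fun ω => by
              have h1 := Av_bd e.T (d.W * Dlt d.β) L₂ (gl_bd e hyl b i) ω
              have h2 := Av_bd e.T d.W L₂ (gl_bd e hyl b i) ω
              rw [abs_le] at h1 h2 ⊢
              constructor <;> linarith))
  have hfin := (((((hLam yl).add (hLam e.ys)).add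
    ((AB.sum (range L) fun l => hmv l).mul (2 * d.k / (L : ℝ)) (by positivity))).add hE2).add
      ((AB.sum (Finset.univ : Finset (Fin d.k)) hE4).mul d.k hk)).add
        ((AB.real e.P).mul ((d.k : ℝ) ^ 2 / d.w) (by positivity))
  exact ⟨_, hfin⟩

/-- (S4b) the bound is additive and the steps are small. -/
theorem pf_S4b (hul : T_UL) (hec : T_EC) : T_S4b := by
  intro d e yl L L₂ hyl _ _
  obtain ⟨C, hC⟩ := EL_AB hul d e yl hyl L L₂
  refine ⟨hC.nn, hC.ad, ?_, ?_⟩
  · have h : e.yt 0 = e.ys := by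
      funext i ω
      unfold SwE.ys SwE.yt
      simp
    rw [h]
    exact Filter.Eventually.of_forall fun _ => rfl
  · intro t
    -- the steps
    have hstep : ∀ i ω, |dl yl (e.yt (t + 1)) i ω - dl yl (e.yt t) i ω| ≤
        e.mv 1 (e.T^[d.W * t] ω) := by
      intro i ω
      have hit : e.T^[d.W * 1] (e.T^[d.W * t] ω) = e.T^[d.W * (t + 1)] ω := by
        rw [show d.W * (t + 1) = d.W * 1 + d.W * t by ring, Function.iterate_add_apply]
      unfold SwE.mv
      rw [hit]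
      split_ifs with h
      · have : e.yt (t + 1) i ω = e.yt t i ω := by
          unfold SwE.yt
          rw [h]
        unfold dl
        rw [this]
        simp
      · have h1 := dl_bd yl (e.yt (t + 1)) i ω
        have h2 := dl_bd yl (e.yt t) i ω
        rw [abs_le]
        constructor <;> linarith [h1.1, h1.2, h2.1, h2.2]
    have hint : ∀ {f : e.Ω → ℝ}, Measurable f → (∀ ω, 0 ≤ f ω ∧ f ω ≤ 1) → Integrable f e.P := by
      intro f hf hb
      apply Integrable.of_bound hf.aestronglyMeasurable 1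
      filter_upwards with ω
      rw [Real.norm_eq_abs, abs_of_nonneg (hb ω).1]
      exact (hb ω).2
    have hdl : ∀ (s : ℕ) i, Integrable (dl yl (e.yt s) i) e.P := fun s i =>
      hint (meas_dl i (hyl.1 i) (meas_yt e s i)) (dl_bd _ _ i)
    have hmvi : Integrable (fun ω => e.mv 1 (e.T^[d.W * t] ω)) e.P :=
      hint ((meas_mv e 1).comp (meas_it e.T _)) fun ω => mv_bd e 1 _
    obtain ⟨hec1, hec2⟩ := hec e.Ω e.P e.T d.W (d.W * t) (e.mv 1) e.mp (meas_mv e 1)
      ⟨1, fun ω => by rw [abs_of_nonneg (mv_bd e 1 ω).1]; exact (mv_bd e 1 ω).2⟩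
    have hinv : ∀ (n : ℕ) (ω : e.Ω), (e.P[e.mv 1 | Inv e.T d.W]) (e.T^[d.W * n] ω) =
        (e.P[e.mv 1 | Inv e.T d.W]) ω := by
      intro n
      induction n with
      | zero => intro ω; simp
      | succ n ih =>
        intro ω
        have : e.T^[d.W * (n + 1)] ω = e.T^[d.W * n] (e.T^[d.W] ω) := by
          rw [show d.W * (n + 1) = d.W * n + d.W by ring, Function.iterate_add_apply]
        rw [this, ih, hec2]
    have hcond : ∀ i, ∀ᵐ ω ∂e.P, |(e.P[dl yl (e.yt (t + 1)) i | Inv e.T d.W]) ω -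
        (e.P[dl yl (e.yt t) i | Inv e.T d.W]) ω| ≤ (e.P[e.mv 1 | Inv e.T d.W]) ω := by
      intro i
      have h1 : e.P[dl yl (e.yt (t + 1)) i | Inv e.T d.W] ≤ᵐ[e.P]
          e.P[dl yl (e.yt t) i + (fun ω => e.mv 1 (e.T^[d.W * t] ω)) | Inv e.T d.W] := by
        apply condExp_mono (hdl _ i) ((hdl _ i).add hmvi)
        filter_upwards with ω
        have := (abs_le.mp (hstep i ω)).2
        simp only [Pi.add_apply]
        linarith
      have h2 : e.P[dl yl (e.yt t) i | Inv e.T d.W] ≤ᵐ[e.P]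
          e.P[dl yl (e.yt (t + 1)) i + (fun ω => e.mv 1 (e.T^[d.W * t] ω)) | Inv e.T d.W] := by
        apply condExp_mono (hdl _ i) ((hdl _ i).add hmvi)
        filter_upwards with ω
        have := (abs_le.mp (hstep i ω)).1
        simp only [Pi.add_apply]
        linarith
      filter_upwards [h1, h2, condExp_add (hdl t i) hmvi (Inv e.T d.W), condExp_add (hdl (t + 1) i) hmvi (Inv e.T d.W),
        hec1] with ω a1 a2 a3 a4 a5
      rw [a3] at a1
      rw [a4] at a2
      simp only [Pi.add_apply] at a1 a2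
      rw [a5, hinv] at a1 a2
      rw [abs_le]
      constructor <;> linarith
    have hall : ∀ᵐ ω ∂e.P, ∀ i, |(e.P[dl yl (e.yt (t + 1)) i | Inv e.T d.W]) ω -
        (e.P[dl yl (e.yt t) i | Inv e.T d.W]) ω| ≤ (e.P[e.mv 1 | Inv e.T d.W]) ω := ae_all_iff.mpr hcond
    filter_upwards [hall] with ω h
    unfold Mis
    rw [← Finset.sum_sub_distrib]
    calc |∑ i, ((e.P[dl yl (e.yt (t + 1)) i | Inv e.T d.W]) ω - (e.P[dl yl (e.yt t) i | Inv e.T d.W]) ω)|
        ≤ ∑ i, |(e.P[dl yl (e.yt (t + 1)) i | Inv e.T d.W]) ω - (e.P[dl yl (e.yt t) i | Inv e.T d.W]) ω| :=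
          Finset.abs_sum_le_sum_abs _ _
      _ ≤ ∑ _i : Fin d.k, (e.P[e.mv 1 | Inv e.T d.W]) ω := Finset.sum_le_sum fun i _ => h i
      _ = d.k * (e.P[e.mv 1 | Inv e.T d.W]) ω := by simp

end Pool.Agent.H66.SG.S4b
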